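import Pool.Agent.NPX.Stmts

/-!
# NPX MAN: the counting (second seat, helper61)
-/

set_option autoImplicit false

open MeasureTheory Set Topology Pointwise

namespace Pool.Agent.NPX.H61

open Pool.Agent.LSG

/-- linearly independent finitely supported vectors over a finite set of coordinates -/
theorem card_le {ι κ : Type} [Fintype ι] (v : ι → κ →₀ ℝ) (hv : LinearIndependent ℝ v)
    (B : Finset κ) (hB : ∀ i a, v i a ≠ 0 → a ∈ B) : Fintype.card ι ≤ B.card := by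
  classical
  have hmem : ∀ i, v i ∈ Finsupp.supported ℝ ℝ (B : Set κ) := by
    intro i
    rw [Finsupp.mem_supported]
    intro a ha
    exact hB i a (Finsupp.mem_support_iff.1 ha)
  let v' : ι → Finsupp.supported ℝ ℝ (B : Set κ) := fun i => ⟨v i, hmem i⟩
  have hv' : LinearIndependent ℝ v' := by
    apply LinearIndependent.of_comp (Finsupp.supported ℝ ℝ (B : Set κ)).subtype
    exact hv
  let e := Finsupp.supportedEquivFinsupp (M := ℝ) (R := ℝ) (B : Set κ)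
  haveI : Module.Finite ℝ (Finsupp.supported ℝ ℝ (B : Set κ)) := Module.Finite.equiv e.symm
  have h := hv'.fintype_card_le_finrank
  rw [LinearEquiv.finrank_eq e, Module.finrank_finsupp_self] at h
  simpa using h

theorem man (hPWR : PwrStmt) (hEXN : ExnStmt) (hFOL : FolStmt) (hAVG : AvgStmt)
    (hTRI : TriStmt) (hGNR : GnrStmt) (hSPB : SpbStmt) (hRPV : RpvStmt) : ManStmt := by
  intro K _ _ _ _ _ _ _ _ G hG p q hLE
  classical
  obtain ⟨T, hT1, hT2⟩ := hLE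
  obtain ⟨c, hc⟩ := hRPV _ _ (T : C(G × Fin p, ℝ) →ₗ[ℝ] C(G × Fin q, ℝ)) hT1
  obtain ⟨d, hd⟩ := hRPV _ _ (T.symm : C(G × Fin q, ℝ) →ₗ[ℝ] C(G × Fin p, ℝ)) hT2
  obtain ⟨S, hSc, hSG, hkS, hSpc, hSpd⟩ := hSPB K G hG p q _ c _ d hc hd
  obtain ⟨_, _, hadd, hmul, hUI, _, _, _, _, hUsub, V, hVne, hVun, hVdiff, hVex⟩ := hPWR K
  by_contra hqp
  have hpq : p < q := Nat.lt_of_not_le hqp
  have hneg : ∀ a, ¬ Inf K a → ¬ Inf K (-a) := by
    intro a ha
    have := hmul a (-1) ha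
    rwa [mul_neg_one] at this
  -- the constant
  obtain ⟨ε, hε0, hε1, hεpq⟩ : ∃ ε : ℝ, 0 < ε ∧ ε < 1 ∧ (p : ℝ) * (1 + ε) < q * (1 - ε) := by
    have hp : (0 : ℝ) ≤ p := Nat.cast_nonneg p
    have hq : (p : ℝ) + 1 ≤ q := by exact_mod_cast hpq
    have hs : (0 : ℝ) < (p : ℝ) + q + 1 := by linarith
    refine ⟨1 / ((p : ℝ) + q + 1), by positivity, ?_, ?_⟩
    · rw [div_lt_one hs]
      linarith
    · have h1 : ((p : ℝ) + q) * (1 / ((p : ℝ) + q + 1)) < 1 := by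
        rw [mul_one_div, div_lt_one hs]
        linarith
      nlinarith
  obtain ⟨δ, hδ, hAV⟩ := hAVG K G hG V hVne hVun ε hε0 hε1
  obtain ⟨H, n, M, hHS, hMm, hMδ, hM⟩ := hEXN K G S hG p q _ c hc hSc hSpc δ hδ
  obtain ⟨F, F', hFne, hFS, hF'S, hFF', hFol⟩ := hFOL K S V hkS hVun H n ε hHS hε0
  obtain ⟨x, hxG, ⟨hgc, hgd⟩, hcount⟩ := hAV M F hMm hMδ hFne (fun x => Gn c S x ∧ Gn d S x)
    ((hGNR K G p q c S hSc hSpc).and (hGNR K G q p d S hSc hSpd))
  have hTU : ∀ g, (T : C(G × Fin p, ℝ) →ₗ[ℝ] C(G × Fin q, ℝ))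
      ((T.symm : C(G × Fin q, ℝ) →ₗ[ℝ] C(G × Fin p, ℝ)) g) = g := by
    intro g
    exact T.apply_symm_apply g
  have hli := hTRI K G S p q _ c _ d x hc hd hTU hSG hxG hkS hSpd.1 hgc hgd
  -- powers in S
  have hpowS : ∀ k : ℤ, x ^ k ∈ S → ¬ Inf K k := fun k hk hI => hgc.pow k hI hk
  -- the points
  let y : ℤ × K → G := fun w => if h : x ^ w.1 * w.2 ∈ G then ⟨x ^ w.1 * w.2, h⟩ else 1
  have hy : ∀ w : ℤ × K, w.2 ∈ S → (y w : K) = x ^ w.1 * w.2 := by
    intro w hw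
    have h : x ^ w.1 * w.2 ∈ G := G.mul_mem (G.zpow_mem hxG _) (hSG hw)
    simp only [y, dif_pos h]
  let Wf : Finset (ℤ × K) := (V ×ˢ F).filter fun w => x ^ w.1 * w.2 ∈ M
  have hWcard : Set.ncard {w : ℤ × K | w.1 ∈ V ∧ w.2 ∈ F ∧ x ^ w.1 * w.2 ∈ M} = Wf.card := by
    rw [← Set.ncard_coe_finset Wf]
    congr 1
    ext w
    simp only [Wf, Set.mem_setOf_eq, Finset.coe_filter, Finset.mem_product, and_assoc]
  rw [hWcard] at hcount
  have hWV : ∀ w : Wf, w.1.1 ∈ V := fun w => (Finset.mem_product.1 (Finset.mem_filter.1 w.2).1).1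
  have hWF : ∀ w : Wf, w.1.2 ∈ F := fun w => (Finset.mem_product.1 (Finset.mem_filter.1 w.2).1).2
  have hWM : ∀ w : Wf, x ^ w.1.1 * w.1.2 ∈ M := fun w => (Finset.mem_filter.1 w.2).2
  have hyW : ∀ w : Wf, (y w.1 : K) = x ^ w.1.1 * w.1.2 := fun w => hy _ (hFS _ (hWF w))
  have hyT : ∀ w : Wf, (y w.1 : K) ∈ Tp S x := fun w =>
    ⟨w.1.1, hVun _ (hWV w), w.1.2, hFS _ (hWF w), hyW w⟩
  let ι := Wf × Fin q
  let f : ι → {b : G × Fin q // (b.1 : K) ∈ Tp S x} := fun t => ⟨(y t.1.1, t.2), hyT t.1⟩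
  have hf : Function.Injective f := by
    rintro ⟨w, i⟩ ⟨w', i'⟩ h
    have h1 : y w.1 = y w'.1 := congrArg (fun b => b.1.1) h
    have h2 : i = i' := congrArg (fun b => b.1.2) h
    have h3 : x ^ w.1.1 * w.1.2 = x ^ w'.1.1 * w'.1.2 := by
      rw [← hyW, ← hyW, h1]
    have h4 : x ^ (w.1.1 - w'.1.1) = w'.1.2 * (w.1.2)⁻¹ := by
      rw [zpow_sub, eq_mul_inv_iff_mul_eq, mul_right_comm, h3, mul_right_comm, mul_inv_cancel, one_mul]
    have h5 : x ^ (w.1.1 - w'.1.1) ∈ S := by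
      rw [h4]
      exact S.mul_mem (hFS _ (hWF w')) (S.inv_mem (hFS _ (hWF w)))
    have h6 : w.1.1 = w'.1.1 := by
      by_contra hne
      exact hpowS _ h5 (hVdiff _ (hWV w) _ (hWV w') hne)
    have h7 : w.1.2 = w'.1.2 := by
      rw [h6] at h3
      exact mul_left_cancel h3
    have h8 : w = w' := Subtype.ext (Prod.ext h6 h7)
    rw [h8, h2]
  have hli2 := hli.comp f hf
  let B : Finset (G × Fin p) := ((V ×ˢ F') ×ˢ (Finset.univ : Finset (Fin p))).image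
    fun t => (y t.1, t.2)
  have hBcard : B.card ≤ V.card * F'.card * p := by
    refine le_trans Finset.card_image_le ?_
    rw [Finset.card_product, Finset.card_product, Finset.card_univ, Fintype.card_fin]
  have hsupp : ∀ (t : ι) (a : G × Fin p),
      (((fun b : {b : G × Fin q // (b.1 : K) ∈ Tp S x} =>
        (c b.1).filter fun a => (a.1 : K) ∈ Tp S x) ∘ f) t) a ≠ 0 → a ∈ B := by
    rintro ⟨w, i⟩ a ha
    have ha' : ((c (y w.1, i)).filter fun a => (a.1 : K) ∈ Tp S x) a ≠ 0 := ha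
    have haT : (a.1 : K) ∈ Tp S x := by
      by_contra hn
      exact ha' (Finsupp.filter_apply_neg (fun a : G × Fin p => (a.1 : K) ∈ Tp S x) _ hn)
    rw [Finsupp.filter_apply_pos (fun a : G × Fin p => (a.1 : K) ∈ Tp S x) _ haT] at ha'
    obtain ⟨j, hj, hjH⟩ := hM (y w.1) i a (by rw [hyW]; exact hWM w) ha'
    obtain ⟨u', hu', s', hs', has'⟩ := haT
    have e1 : (a.1 : K) = x ^ (w.1.1 * j) * ((w.1.2) ^ j * ((a.1 : K) * ((y w.1 : K) ^ j)⁻¹)) := by
      rw [hyW, mul_zpow, ← zpow_mul, mul_inv]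
      have : ∀ A B C : K, C = A * (B * (C * (A⁻¹ * B⁻¹))) := by
        intro A B C
        rw [mul_comm C, ← mul_assoc B, mul_comm A⁻¹, ← mul_assoc B, mul_inv_cancel, one_mul,
          ← mul_assoc, mul_inv_cancel, one_mul]
      exact this _ _ _
    have hin : x ^ (w.1.1 * j - u') ∈ S := by
      have e2 : x ^ (w.1.1 * j - u') =
          s' * ((w.1.2) ^ j * ((a.1 : K) * ((y w.1 : K) ^ j)⁻¹))⁻¹ := by
        rw [zpow_sub, eq_mul_inv_iff_mul_eq, mul_right_comm, ← e1, has', mul_right_comm,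
          mul_inv_cancel, one_mul]
      rw [e2]
      exact S.mul_mem hs' (S.inv_mem (S.mul_mem (S.zpow_mem (hFS _ (hWF w)) _) (hHS _ hjH)))
    have hni := hpowS _ hin
    have hUn : Un K (w.1.1 * j) := by
      refine hUsub u' _ hu' ?_
      have := hneg _ hni
      rwa [neg_sub] at this
    obtain ⟨v, hvV, hv⟩ := hVex _ hUn
    have hF'mem := hFol w.1.2 (hWF w) _ hjH w.1.1 (hWV w) v hvV j hj hv x
    have e3 : (a.1 : K) = x ^ v * ((w.1.2) ^ j * ((a.1 : K) * ((y w.1 : K) ^ j)⁻¹) *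
        x ^ (w.1.1 * j - v)) := by
      rw [zpow_sub]
      have : ∀ A B C : K, B * (C * (A * B⁻¹)) = A * C := by
        intro A B C
        rw [mul_comm A, ← mul_assoc C, mul_comm C, ← mul_assoc, ← mul_assoc, mul_inv_cancel, one_mul,
          mul_comm]
      rw [this]
      exact e1
    refine Finset.mem_image.2 ⟨((v, (w.1.2) ^ j * ((a.1 : K) * ((y w.1 : K) ^ j)⁻¹) *
        x ^ (w.1.1 * j - v)), a.2), ?_, ?_⟩
    · exact Finset.mem_product.2 ⟨Finset.mem_product.2 ⟨hvV, hF'mem⟩, Finset.mem_univ _⟩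
    · refine Prod.ext (Subtype.ext ?_) rfl
      rw [hy _ (hF'S _ hF'mem)]
      exact e3.symm
  have hfin := card_le _ hli2 B hsupp
  rw [Fintype.card_prod, Fintype.card_coe, Fintype.card_fin] at hfin
  have hfin2 : Wf.card * q ≤ V.card * F'.card * p := hfin.trans hBcard
  have hfin3 : (Wf.card : ℝ) * q ≤ V.card * F'.card * p := by exact_mod_cast hfin2
  have hV0 : (0 : ℝ) < V.card := by exact_mod_cast hVne.card_pos
  have hF0 : (0 : ℝ) < F.card := by exact_mod_cast hFne.card_pos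
  have hq0 : (0 : ℝ) ≤ q := Nat.cast_nonneg q
  have hp0 : (0 : ℝ) ≤ p := Nat.cast_nonneg p
  have s1 : (1 - ε) * (V.card * F.card) * q ≤ V.card * ((1 + ε) * F.card) * p := by
    calc (1 - ε) * ((V.card : ℝ) * F.card) * q ≤ Wf.card * q :=
          mul_le_mul_of_nonneg_right hcount hq0
      _ ≤ V.card * F'.card * p := hfin3
      _ ≤ V.card * ((1 + ε) * F.card) * p :=
          mul_le_mul_of_nonneg_right (mul_le_mul_of_nonneg_left hFF' hV0.le) hp0
  have s2 : (V.card : ℝ) * F.card * (p * (1 + ε)) < V.card * F.card * (q * (1 - ε)) :=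
    mul_lt_mul_of_pos_left hεpq (mul_pos hV0 hF0)
  have s3 : (1 - ε) * ((V.card : ℝ) * F.card) * q = V.card * F.card * (q * (1 - ε)) := by ring
  have s4 : (V.card : ℝ) * ((1 + ε) * F.card) * p = V.card * F.card * (p * (1 + ε)) := by ring
  rw [s3, s4] at s1
  exact absurd s1 (not_le.2 s2)

end Pool.Agent.NPX.H61
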